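import Pool.Agent.Work.MP_e08233_an.Defs

/-! From a map of the sphere of norm complementary to an exponential to the statement. -/

set_option autoImplicit false

open MeasureTheory Complex

namespace Pool.Agent.BM

/-- an exponential is not a quotient of polynomials -/
theorem fin_exp_not_rat {β : ℂ} (hβ : β ≠ 0) (Q P : Polynomial ℂ) (hQ : Q ≠ 0)
    (h : ∀ s : ℂ, β * exp s * Q.eval s = P.eval s) : False := by
  have key : ∀ s0 : ℂ, Polynomial.C (β * exp s0) * Q = P := by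
    intro s0
    apply Polynomial.eq_of_infinite_eval_eq
    have hinf : (Set.range fun k : ℤ => s0 + k * (2 * Real.pi * I)).Infinite := by
      apply Set.infinite_range_of_injective
      intro a b hab
      have h1 : (a : ℂ) * (2 * Real.pi * I) = b * (2 * Real.pi * I) := by
        simpa using hab
      have h2 := mul_right_cancel₀ (two_pi_I_ne_zero) h1
      exact_mod_cast h2
    refine hinf.mono ?_
    rintro _ ⟨k, rfl⟩
    change (Polynomial.C (β * exp s0) * Q).eval _ = P.eval _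
    rw [← h, Polynomial.eval_mul, Polynomial.eval_C, exp_add]
    have : exp ((k : ℂ) * (2 * Real.pi * I)) = 1 := exp_int_mul_two_pi_mul_I k
    rw [this, mul_one]
  have h0 := (key 0).trans (key 1).symm
  have h1 : Polynomial.C (β * exp 0 - β * exp 1) * Q = 0 := by
    rw [Polynomial.C_sub, sub_mul, h0, sub_self]
  rcases mul_eq_zero.1 h1 with h2 | h2
  · rw [Polynomial.C_eq_zero, ← mul_sub] at h2
    have h3 := (mul_eq_zero.1 h2).resolve_left hβ
    have h4 : exp 1 = exp 0 := (sub_eq_zero.1 h3).symm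
    have h5 : Real.exp 1 = Real.exp 0 := by
      have h7 : ((Real.exp 1 : ℝ) : ℂ) = ((Real.exp 0 : ℝ) : ℂ) := by
        push_cast
        exact h4
      exact_mod_cast h7
    have h6 := Real.exp_injective h5
    norm_num at h6
  · exact hQ h2

theorem fin_not_rational {β : ℂ} (hβ : β ≠ 0) (q p : MvPolynomial (Fin 2) ℂ) (hq : q ≠ 0)
    (h : ∀ z ∈ {z : Fin 2 → ℂ | ∑ i, ‖z i‖ ^ 2 < 1},
      β * exp (z 0) * MvPolynomial.eval z q = MvPolynomial.eval z p) : False := by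
  -- the identity holds everywhere
  have hall : ∀ z : Fin 2 → ℂ,
      β * exp (z 0) * MvPolynomial.eval z q = MvPolynomial.eval z p := by
    intro z
    have hline : ∀ r : MvPolynomial (Fin 2) ℂ, ∃ R : Polynomial ℂ, ∀ t : ℂ,
        MvPolynomial.eval (t • z) r = R.eval t := by
      intro r
      refine ⟨MvPolynomial.aeval (fun i => Polynomial.C (z i) * Polynomial.X) r, fun t => ?_⟩
      rw [← Polynomial.coe_aeval_eq_eval, MvPolynomial.comp_aeval_apply,
        MvPolynomial.aeval_eq_eval]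
      congr 2
      funext i
      simp only [Pi.smul_apply, smul_eq_mul, map_mul, Polynomial.aeval_C, Polynomial.aeval_X,
        Algebra.algebraMap_self, RingHom.id_apply]
      exact mul_comm _ _
    obtain ⟨Rq, hRq⟩ := hline q
    obtain ⟨Rp, hRp⟩ := hline p
    let F : ℂ → ℂ := fun t => β * exp (t * z 0) * Rq.eval t - Rp.eval t
    have hF : AnalyticOnNhd ℂ F Set.univ := by
      have : Differentiable ℂ F := by
        have h1 : Differentiable ℂ (fun t : ℂ => Rq.eval t) := Rq.differentiable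
        have h2 : Differentiable ℂ (fun t : ℂ => Rp.eval t) := Rp.differentiable
        have h3 : Differentiable ℂ (fun t : ℂ => exp (t * z 0)) := by fun_prop
        exact ((h3.const_mul β).mul h1).sub h2
      exact (Complex.analyticOnNhd_univ_iff_differentiable).2 this
    have hev : F =ᶠ[nhds 0] 0 := by
      have hc : Continuous (fun t : ℂ => ∑ i, ‖(t • z) i‖ ^ 2) := by fun_prop
      have h0 : (fun t : ℂ => ∑ i, ‖(t • z) i‖ ^ 2) 0 < 1 := by simp
      filter_upwards [hc.continuousAt.eventually_lt continuousAt_const h0] with t ht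
      have h1 := h (t • z) ht
      change β * exp (t * z 0) * Rq.eval t - Rp.eval t = 0
      rw [← hRq, ← hRp, sub_eq_zero]
      simpa using h1
    have hz := hF.eqOn_zero_of_preconnected_of_eventuallyEq_zero isPreconnected_univ
      (Set.mem_univ 0) hev (Set.mem_univ 1)
    change β * exp (1 * z 0) * Rq.eval 1 - Rp.eval 1 = 0 at hz
    rw [← hRq, ← hRp, one_mul, one_smul, sub_eq_zero] at hz
    exact hz
  obtain ⟨z, hz⟩ : ∃ z, MvPolynomial.eval z q ≠ 0 := by
    by_contra hcon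
    push Not at hcon
    exact hq (MvPolynomial.funext fun z => by rw [hcon z, map_zero])
  have hslice : ∀ r : MvPolynomial (Fin 2) ℂ, ∃ R : Polynomial ℂ, ∀ s : ℂ,
      MvPolynomial.eval ![s, z 1] r = R.eval s := by
    intro r
    refine ⟨MvPolynomial.aeval ![Polynomial.X, Polynomial.C (z 1)] r, fun s => ?_⟩
    rw [← Polynomial.coe_aeval_eq_eval, MvPolynomial.comp_aeval_apply,
      MvPolynomial.aeval_eq_eval]
    congr 2
    funext i
    fin_cases i <;> simp
  obtain ⟨Rq, hRq⟩ := hslice q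
  obtain ⟨Rp, hRp⟩ := hslice p
  apply fin_exp_not_rat hβ Rq Rp
  · intro h0
    apply hz
    have h1 : z = ![z 0, z 1] := by
      funext i; fin_cases i <;> simp
    rw [h1, hRq, h0, Polynomial.eval_zero]
  · intro s
    have h1 := hall ![s, z 1]
    rw [hRq, hRp] at h1
    simpa using h1

theorem final_assembly (t N : ℕ) (hN : 2 ≤ N) (β : ℝ) (hβ : 0 < β) (g : E2 → VN N)
    (hd : DifferentiableOn ℂ g {z : E2 | ‖z‖ < 1})
    (hc : ContDiffOn ℂ t g {z : E2 | ‖z‖ ≤ 1})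
    (hs : ∀ z ∈ S, ‖g z‖ ^ 2 = 1 - ‖(β : ℂ) * exp (z 0)‖ ^ 2) :
    ¬ (∀ n N : ℕ, 1 < n → n < N →
    ∀ f : (Fin n → ℂ) → (Fin N → ℂ),
      Set.MapsTo f {z : Fin n → ℂ | ∑ i, ‖z i‖ ^ 2 < 1} {w : Fin N → ℂ | ∑ j, ‖w j‖ ^ 2 < 1} →
      DifferentiableOn ℂ f {z : Fin n → ℂ | ∑ i, ‖z i‖ ^ 2 < 1} →
      (∀ K : Set (Fin N → ℂ), K ⊆ {w : Fin N → ℂ | ∑ j, ‖w j‖ ^ 2 < 1} → IsCompact K →
        IsCompact ({z : Fin n → ℂ | ∑ i, ‖z i‖ ^ 2 < 1} ∩ f ⁻¹' K)) →
      ContDiffOn ℝ (t : WithTop ℕ∞) f {z : Fin n → ℂ | ∑ i, ‖z i‖ ^ 2 ≤ 1} →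
      ∃ p : Fin N → MvPolynomial (Fin n) ℂ, ∃ q : MvPolynomial (Fin n) ℂ, q ≠ 0 ∧
        ∀ z ∈ {z : Fin n → ℂ | ∑ i, ‖z i‖ ^ 2 < 1}, ∀ j : Fin N,
          f z j * MvPolynomial.eval z q = MvPolynomial.eval z (p j)) := by
  intro hmain
  let T : (Fin 2 → ℂ) → E2 := fun z => WithLp.toLp 2 z
  have hT : ∀ z : Fin 2 → ℂ, ‖T z‖ ^ 2 = ∑ i, ‖z i‖ ^ 2 := fun z =>
    EuclideanSpace.norm_sq_eq (T z)
  have hT1 : ∀ z : Fin 2 → ℂ, ‖T z‖ < 1 ↔ ∑ i, ‖z i‖ ^ 2 < 1 := by
    intro z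
    rw [← hT, sq_lt_one_iff₀ (norm_nonneg _)]
  have hT2 : ∀ z : Fin 2 → ℂ, ‖T z‖ ≤ 1 ↔ ∑ i, ‖z i‖ ^ 2 ≤ 1 := by
    intro z
    rw [← hT, sq_le_one_iff₀ (norm_nonneg _)]
  let f : (Fin 2 → ℂ) → (Fin (N + 1) → ℂ) := fun z =>
    Fin.cons ((β : ℂ) * exp (z 0)) (fun j => g (T z) j)
  let F : E2 → VN (N + 1) := fun z => WithLp.toLp 2 (f (fun i => z i))
  have hTi : ∀ z : E2, T (fun i => z i) = z := fun z => rfl
  have hFn : ∀ z : E2, ‖F z‖ ^ 2 = ‖(β : ℂ) * exp (z 0)‖ ^ 2 + ‖g z‖ ^ 2 := by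
    intro z
    rw [EuclideanSpace.norm_sq_eq (F z), Fin.sum_univ_succ, EuclideanSpace.norm_sq_eq (g z)]
    rfl
  have hfF : ∀ z : Fin 2 → ℂ, ∑ j, ‖f z j‖ ^ 2 = ‖F (T z)‖ ^ 2 := by
    intro z
    rw [EuclideanSpace.norm_sq_eq (F (T z))]
  have hTc : Continuous T := PiLp.continuous_toLp 2 _
  -- differentiability
  have hTd : Differentiable ℂ T :=
    (PiLp.continuousLinearEquiv 2 ℂ (fun _ : Fin 2 => ℂ)).symm.differentiable
  have hfd : DifferentiableOn ℂ f {z : Fin 2 → ℂ | ∑ i, ‖z i‖ ^ 2 < 1} := by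
    rw [differentiableOn_pi]
    intro j
    refine Fin.cases ?_ (fun j => ?_) j
    · have : Differentiable ℂ (fun z : Fin 2 → ℂ => (β : ℂ) * exp (z 0)) := by fun_prop
      exact this.differentiableOn
    · have h1 : DifferentiableOn ℂ (fun z => g (T z)) {z : Fin 2 → ℂ | ∑ i, ‖z i‖ ^ 2 < 1} :=
        hd.comp hTd.differentiableOn (fun z hz => (hT1 z).2 hz)
      have h2 : Differentiable ℂ (fun w : VN N => w j) := by fun_prop
      exact h2.comp_differentiableOn h1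
  have hgc : ContinuousOn g {z : E2 | ‖z‖ ≤ 1} := hc.continuousOn
  have hfc : ContinuousOn f {z : Fin 2 → ℂ | ∑ i, ‖z i‖ ^ 2 ≤ 1} := by
    rw [continuousOn_pi]
    intro j
    refine Fin.cases ?_ (fun j => ?_) j
    · have : Continuous (fun z : Fin 2 → ℂ => (β : ℂ) * exp (z 0)) := by fun_prop
      exact this.continuousOn
    · have h1 : ContinuousOn (fun z => g (T z)) {z : Fin 2 → ℂ | ∑ i, ‖z i‖ ^ 2 ≤ 1} :=
        hgc.comp hTc.continuousOn (fun z hz => (hT2 z).2 hz)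
      have h2 : Continuous (fun w : VN N => w j) := by fun_prop
      exact h2.comp_continuousOn h1
  have hfs : ContDiffOn ℝ (t : WithTop ℕ∞) f {z : Fin 2 → ℂ | ∑ i, ‖z i‖ ^ 2 ≤ 1} := by
    rw [contDiffOn_pi]
    intro j
    refine Fin.cases ?_ (fun j => ?_) j
    · have h1 : ContDiff ℂ (t : WithTop ℕ∞) (fun z : Fin 2 → ℂ => (β : ℂ) * exp (z 0)) := by
        fun_prop
      exact (h1.restrict_scalars ℝ).contDiffOn
    · have h0 : ContDiffOn ℂ (t : WithTop ℕ∞) (fun z => g (T z))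
          {z : Fin 2 → ℂ | ∑ i, ‖z i‖ ^ 2 ≤ 1} :=
        hc.comp ((PiLp.continuousLinearEquiv 2 ℂ (fun _ : Fin 2 => ℂ)).symm.contDiff.contDiffOn)
          (fun z hz => (hT2 z).2 hz)
      have h2 : ContDiff ℂ (t : WithTop ℕ∞) (fun w : VN N => w j) := by fun_prop
      exact (h2.comp_contDiffOn h0).restrict_scalars ℝ
  -- maximum principle
  have hF1 : ∀ z : E2, ‖z‖ = 1 → ‖F z‖ = 1 := by
    intro z hz
    have h1 := hFn z
    rw [hs z hz] at h1
    have h2 : ‖F z‖ ^ 2 = 1 := by rw [h1]; ring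
    have h3 := norm_nonneg (F z)
    nlinarith
  have hFd : DifferentiableOn ℂ F (Metric.ball (0 : E2) 1) := by
    have h1 : DifferentiableOn ℂ (fun z : E2 => f (fun i => z i)) (Metric.ball (0 : E2) 1) := by
      refine hfd.comp (f := fun z : E2 => (fun i => z i : Fin 2 → ℂ)) ?_ ?_
      · exact (PiLp.continuousLinearEquiv 2 ℂ (fun _ : Fin 2 => ℂ)).differentiable.differentiableOn
      · intro z hz
        apply (hT1 _).1
        rw [hTi]
        simpa using hz
    exact (PiLp.continuousLinearEquiv 2 ℂ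
      (fun _ : Fin (N + 1) => ℂ)).symm.differentiable.comp_differentiableOn h1
  have hFc : ContinuousOn F (Metric.closedBall (0 : E2) 1) := by
    have h1 : ContinuousOn (fun z : E2 => f (fun i => z i)) (Metric.closedBall (0 : E2) 1) := by
      refine hfc.comp (f := fun z : E2 => (fun i => z i : Fin 2 → ℂ)) ?_ ?_
      · exact (PiLp.continuousLinearEquiv 2 ℂ (fun _ : Fin 2 => ℂ)).continuous.continuousOn
      · intro z hz
        apply (hT2 _).1
        rw [hTi]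
        simpa using hz
    exact (PiLp.continuousLinearEquiv 2 ℂ
      (fun _ : Fin (N + 1) => ℂ)).symm.continuous.comp_continuousOn h1
  have hcl : closure (Metric.ball (0 : E2) 1) = Metric.closedBall 0 1 :=
    closure_ball 0 one_ne_zero
  have hle : ∀ z : E2, ‖z‖ ≤ 1 → ‖F z‖ ≤ 1 := by
    intro z hz
    have hdc : DiffContOnCl ℂ F (Metric.ball (0 : E2) 1) := ⟨hFd, by rw [hcl]; exact hFc⟩
    refine Complex.norm_le_of_forall_mem_frontier_norm_le Metric.isBounded_ball hdc ?_ ?_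
    · intro w hw
      rw [frontier_ball 0 one_ne_zero] at hw
      exact (hF1 w (by simpa using hw)).le
    · rw [hcl]; simpa using hz
  have hlt : ∀ z : E2, ‖z‖ < 1 → ‖F z‖ < 1 := by
    intro z hz
    refine lt_of_le_of_ne (hle z hz.le) fun heq => ?_
    have hzb : z ∈ Metric.ball (0 : E2) 1 := by simpa using hz
    have hmax : IsMaxOn (norm ∘ F) (Metric.ball (0 : E2) 1) z := by
      intro w hw
      change ‖F w‖ ≤ ‖F z‖
      rw [heq]
      exact hle w (le_of_lt (by simpa using hw))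
    have hcst := Complex.eqOn_of_isPreconnected_of_isMaxOn_norm
      (convex_ball (0 : E2) 1).isPreconnected Metric.isOpen_ball hFd hzb hmax
    have h0 := hcst (Metric.mem_ball_self one_pos : (0 : E2) ∈ Metric.ball (0 : E2) 1)
    have hx : (WithLp.toLp 2 ![1 / 2, 0] : E2) ∈ Metric.ball (0 : E2) 1 := by
      rw [mem_ball_zero_iff, ← sq_lt_one_iff₀ (norm_nonneg _), EuclideanSpace.norm_sq_eq,
        Fin.sum_univ_two]
      norm_num
    have h1 := hcst hx
    have h2 : F 0 = F (WithLp.toLp 2 ![1 / 2, 0]) := by rw [h0, h1]; rfl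
    have h3 : (β : ℂ) * exp 0 = β * exp (1 / 2) := by
      have := congrArg (fun w : VN (N + 1) => w 0) h2
      simpa [F, f] using this
    have hβ' : (β : ℂ) ≠ 0 := by exact_mod_cast hβ.ne'
    have h4 := mul_left_cancel₀ hβ' h3
    have h5 : Real.exp 0 = Real.exp (1 / 2) := by
      have h6 : ((Real.exp 0 : ℝ) : ℂ) = ((Real.exp (1 / 2) : ℝ) : ℂ) := by
        push_cast
        exact h4
      exact_mod_cast h6
    have h6 := Real.exp_injective h5
    norm_num at h6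
  -- the map is proper
  have hmaps : Set.MapsTo f {z : Fin 2 → ℂ | ∑ i, ‖z i‖ ^ 2 < 1}
      {w : Fin (N + 1) → ℂ | ∑ j, ‖w j‖ ^ 2 < 1} := by
    intro z hz
    change ∑ j, ‖f z j‖ ^ 2 < 1
    rw [hfF, sq_lt_one_iff₀ (norm_nonneg _)]
    exact hlt _ ((hT1 z).2 hz)
  have hclosed : IsClosed {z : Fin 2 → ℂ | ∑ i, ‖z i‖ ^ 2 ≤ 1} :=
    isClosed_le (by fun_prop) continuous_const
  have hcomp : IsCompact {z : Fin 2 → ℂ | ∑ i, ‖z i‖ ^ 2 ≤ 1} := by
    have h1 : {z : Fin 2 → ℂ | ∑ i, ‖z i‖ ^ 2 ≤ 1} ⊆ Metric.closedBall 0 1 := by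
      intro z hz
      rw [mem_closedBall_zero_iff, pi_norm_le_iff_of_nonneg zero_le_one]
      intro i
      have h2 : ‖z i‖ ^ 2 ≤ ∑ i, ‖z i‖ ^ 2 :=
        Finset.single_le_sum (f := fun i => ‖z i‖ ^ 2) (fun i _ => by positivity)
          (Finset.mem_univ i)
      exact (sq_le_one_iff₀ (norm_nonneg _)).1 (h2.trans hz)
    exact (isCompact_closedBall (0 : Fin 2 → ℂ) 1).of_isClosed_subset hclosed h1
  have hprop : ∀ K : Set (Fin (N + 1) → ℂ), K ⊆ {w : Fin (N + 1) → ℂ | ∑ j, ‖w j‖ ^ 2 < 1} →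
      IsCompact K → IsCompact ({z : Fin 2 → ℂ | ∑ i, ‖z i‖ ^ 2 < 1} ∩ f ⁻¹' K) := by
    intro K hK hKc
    have heq : {z : Fin 2 → ℂ | ∑ i, ‖z i‖ ^ 2 < 1} ∩ f ⁻¹' K
        = {z : Fin 2 → ℂ | ∑ i, ‖z i‖ ^ 2 ≤ 1} ∩ f ⁻¹' K := by
      apply Set.Subset.antisymm
      · rintro z ⟨hz1, hz2⟩
        have hz1' : ∑ i, ‖z i‖ ^ 2 < 1 := hz1
        exact ⟨hz1'.le, hz2⟩
      · rintro z ⟨hz1, hz2⟩
        have hz1' : ∑ i, ‖z i‖ ^ 2 ≤ 1 := hz1
        refine ⟨?_, hz2⟩
        have h1 : ∑ j, ‖f z j‖ ^ 2 < 1 := hK hz2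
        change ∑ i, ‖z i‖ ^ 2 < 1
        refine lt_of_le_of_ne hz1' fun h2 => ?_
        have h3 : ‖T z‖ = 1 := by
          have := hT z
          rw [h2] at this
          have h4 := norm_nonneg (T z)
          nlinarith
        rw [hfF, hF1 _ h3] at h1
        norm_num at h1
    rw [heq]
    exact hcomp.of_isClosed_subset (hfc.preimage_isClosed_of_isClosed hclosed hKc.isClosed)
      Set.inter_subset_left
  obtain ⟨p, q, hq, hpq⟩ := hmain 2 (N + 1) (by norm_num) (by omega) f hmaps hfd hprop hfs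
  refine fin_not_rational (β := (β : ℂ)) (by exact_mod_cast hβ.ne') q (p 0) hq ?_
  intro z hz
  exact hpq z hz 0

end Pool.Agent.BM
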