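import Pool.Agent.Work.MP_e08233_an.Asm3
import Pool.Agent.Work.MP_e08233_an.Bd.B01

/-! Assembly, part 4: choice of the constants and the limit. -/

set_option autoImplicit false

open MeasureTheory Complex

namespace Pool.Agent.BM

/-- the scalar component -/
noncomputable def bb (β : ℝ) (z : E2) : ℂ := (β : ℂ) * exp (z 0)

theorem bb_bound (κ0 : ℝ) (hκ0 : 0 < κ0) (z : E2) (hz : ‖z‖ ≤ 2) :
    ‖bb (κ0 * Real.exp (-2)) z‖ ≤ κ0 := by
  unfold bb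
  rw [norm_mul, Complex.norm_real, Complex.norm_exp, Real.norm_of_nonneg (by positivity)]
  have h1 : (z 0).re ≤ 2 := by
    have h2 : ‖z 0‖ ≤ ‖z‖ := EuclideanSpace.norm_eq z ▸ by
      rw [Fin.sum_univ_two]
      exact Real.le_sqrt_of_sq_le (by nlinarith [sq_nonneg ‖z 1‖])
    exact ((Complex.re_le_norm _).trans h2).trans hz
  have h3 : Real.exp ((z 0).re) ≤ Real.exp 2 := Real.exp_le_exp.2 h1
  calc κ0 * Real.exp (-2) * Real.exp ((z 0).re) ≤ κ0 * Real.exp (-2) * Real.exp 2 := by gcongr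
    _ = κ0 := by rw [mul_assoc, ← Real.exp_add]; norm_num

theorem differentiable_bb (β : ℝ) : Differentiable ℂ (bb β) := by
  unfold bb
  have h : Differentiable ℂ (fun z : E2 => z 0) :=
    (EuclideanSpace.proj (𝕜 := ℂ) (0 : Fin 2)).differentiable
  exact (h.cexp).const_mul _

/-- choice of constants -/
theorem exists_cst (s : ℕ) (hs : 1 ≤ s) :
    ∃ (σ : Measure E2) (N K J l d : ℕ) (Λ κ0 C1 C4 CD CP CX η R : ℝ),
      Cst σ N K J l s d Λ κ0 C1 C4 CD CP CX η R ∧ 2 ≤ N := by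
  obtain ⟨σ, c, C, hσ⟩ := exists_good
  obtain ⟨J, hJ⟩ : ∃ J, J = 4 * s + 1 := ⟨_, rfl⟩
  obtain ⟨l, hl⟩ : ∃ l, l = 7 * s + 1 := ⟨_, rfl⟩
  obtain ⟨K, hK⟩ : ∃ K, K = 2 * l + J + 6 := ⟨_, rfl⟩
  obtain ⟨d, hd⟩ : ∃ d, d = 2 ^ (2 * l) := ⟨_, rfl⟩
  obtain ⟨κ0, hκ0⟩ : ∃ κ0 : ℝ, κ0 = 1 / 2 ^ (2 * J + 2) := ⟨_, rfl⟩
  have hκ0pos : 0 < κ0 := by rw [hκ0]; positivity
  have hκ01 : κ0 ≤ 1 := by
    rw [hκ0, div_le_one (by positivity)]
    exact one_le_pow₀ (by norm_num)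
  obtain ⟨CD, hCD, hsm⟩ := smoothing_step σ c C hσ K J (by omega) (by omega) (by omega)
  obtain ⟨CP, hCP, η0, hη0, hpack⟩ := packets σ c C hσ K (by omega)
  obtain ⟨CX, hCX, hcr⟩ := cross_est l K (by omega) (by omega)
  obtain ⟨C1, hC1⟩ : ∃ C1 : ℝ, C1 = Real.sqrt (4 * CP) := ⟨_, rfl⟩
  have hC1pos : 0 < C1 := by rw [hC1]; positivity
  obtain ⟨C4, hC4⟩ : ∃ C4 : ℝ, C4 = 4 * CP * CD := ⟨_, rfl⟩
  have hC4pos : 0 < C4 := by rw [hC4]; positivity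
  obtain ⟨θ, hθ⟩ : ∃ θ : ℝ, θ = min (κ0 / (16 * CP)) η0 := ⟨_, rfl⟩
  have hθpos : 0 < θ := by rw [hθ]; positivity
  have hθ1 : θ ≤ κ0 / (16 * CP) := by rw [hθ]; exact min_le_left _ _
  have hθ2 : θ ≤ η0 := by rw [hθ]; exact min_le_right _ _
  have hθ3 : θ ≤ 1 := by
    refine hθ1.trans ?_
    rw [div_le_one (by positivity)]
    linarith
  obtain ⟨Q, hQ⟩ : ∃ Q : ℝ, Q = CX * Real.sqrt (2 * CP) * (C1 * 2) * CP := ⟨_, rfl⟩
  have hQpos : 0 < Q := by rw [hQ]; positivity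
  obtain ⟨Λ, hΛdef⟩ : ∃ Λ : ℝ, Λ = 2 + 8 * Q / (θ ^ 2 * κ0) + 4 * (CD + 2 * C4) / κ0 := ⟨_, rfl⟩
  have hΛ1 : 2 ≤ Λ := by
    rw [hΛdef]
    have h1 : 0 ≤ 8 * Q / (θ ^ 2 * κ0) := by positivity
    have h2 : 0 ≤ 4 * (CD + 2 * C4) / κ0 := by positivity
    linarith
  have hΛ2 : 8 * Q / (θ ^ 2 * κ0) ≤ Λ := by
    rw [hΛdef]
    have h2 : 0 ≤ 4 * (CD + 2 * C4) / κ0 := by positivity
    linarith
  have hΛ3 : 4 * (CD + 2 * C4) / κ0 ≤ Λ := by
    rw [hΛdef]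
    have h1 : 0 ≤ 8 * Q / (θ ^ 2 * κ0) := by positivity
    linarith
  have hΛ0 : 0 < Λ := by linarith
  clear hΛdef
  have hΛ2s : 1 ≤ Λ ^ (2 * s) := one_le_pow₀ (by linarith)
  obtain ⟨η, hη⟩ : ∃ η : ℝ, η = θ * (Λ ^ (2 * s))⁻¹ := ⟨_, rfl⟩
  have hηpos : 0 < η := by rw [hη]; positivity
  have hinv1 : (Λ ^ (2 * s))⁻¹ ≤ 1 := inv_le_one_of_one_le₀ hΛ2s
  have hη1 : η ≤ η0 := by
    rw [hη]
    calc θ * (Λ ^ (2 * s))⁻¹ ≤ θ * 1 := by gcongr
      _ ≤ η0 := by linarith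
  have hη2 : η ≤ 1 := by
    rw [hη]
    calc θ * (Λ ^ (2 * s))⁻¹ ≤ 1 * 1 := by gcongr
      _ = 1 := one_mul 1
  obtain ⟨y, hy⟩ : ∃ y : ℝ, y = κ0 / (16 * CP) * (Λ ^ (2 * s))⁻¹ := ⟨_, rfl⟩
  have hypos : 0 < y := by rw [hy]; positivity
  have hy1 : y ≤ 1 := by
    rw [hy]
    calc κ0 / (16 * CP) * (Λ ^ (2 * s))⁻¹ ≤ 1 * 1 := by
          have : κ0 / (16 * CP) ≤ 1 := by
            rw [div_le_one (by positivity)]; linarith
          gcongr
      _ = 1 := one_mul 1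
  obtain ⟨R, hRdef⟩ : ∃ R : ℝ, R = 1 + 4 / (y * η ^ 4) := ⟨_, rfl⟩
  have hyη : 0 < y * η ^ 4 := by positivity
  have hR1 : 1 ≤ R := by
    rw [hRdef]
    have : 0 ≤ 4 / (y * η ^ 4) := by positivity
    linarith
  have hyη1 : y * η ^ 4 ≤ 1 := by
    have : η ^ 4 ≤ 1 := pow_le_one₀ hηpos.le hη2
    calc y * η ^ 4 ≤ 1 * 1 := by gcongr
      _ = 1 := one_mul 1
  have hR2 : 4 / R ^ 2 ≤ y * η ^ 4 := by
    rw [div_le_iff₀ (by positivity)]
    have h1 : 4 ≤ y * η ^ 4 * R := by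
      rw [hRdef]
      have : y * η ^ 4 * (1 + 4 / (y * η ^ 4)) = y * η ^ 4 + 4 := by field_simp
      rw [this]; linarith
    calc 4 ≤ y * η ^ 4 * R := h1
      _ ≤ y * η ^ 4 * R ^ 2 := by
          gcongr
          nlinarith
  have hX : (4 / R ^ 2) ^ (K - 3) / η ^ 4 ≤ y := by
    rw [div_le_iff₀ (by positivity)]
    have h1 : (4 / R ^ 2) ^ (K - 3) ≤ 4 / R ^ 2 := by
      apply pow_le_of_le_one (by positivity) (hR2.trans hyη1) (by omega)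
    exact h1.trans hR2
  obtain ⟨K0, hK0⟩ := hpack η R hηpos hη1 hR1
  refine ⟨σ, d + K0 + 1, K, J, l, d, Λ, κ0, C1, C4, CD, CP, CX, η, R, ?_, ?_⟩
  · refine
    { hs := hs, hJ := hJ, hl := hl, hd := hd, hΛ := hΛ1, hκ0 := hκ0, hη := hηpos, hR := hR1,
      hCP := hCP, hCD := hCD, hCX := hCX, hC1 := hC1, hC4 := hC4, n1 := ?_, n2 := ?_, n3 := ?_,
      n4 := ?_, prob := ?_, supp := ?_, smooth := ?_, pack := ?_, cross := hcr }
    · -- n1
      have h1 : η ≤ y := by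
        rw [hη, hy]; gcongr
      have h2 : CP * 2 * (y + y) = κ0 / 4 * (Λ ^ (2 * s))⁻¹ := by
        rw [hy]; field_simp; ring
      calc CP * 2 * (η + (4 / R ^ 2) ^ (K - 3) / η ^ 4) ≤ CP * 2 * (y + y) := by gcongr
        _ = κ0 / 4 * (Λ ^ (2 * s))⁻¹ := h2
    · exact hX.trans hy1
    · -- n3
      have h1 : CX * (Real.sqrt (2 * CP) * η ^ 2) * (C1 * (2 * (Λ ^ s / Λ ^ l))) * (CP / η ^ 4) =
          Q * (Λ ^ s / Λ ^ l) / η ^ 2 := by
        rw [hQ]; field_simp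
      rw [h1]
      have h2 : Λ ^ s / Λ ^ l = (Λ ^ (6 * s) * Λ)⁻¹ := by
        rw [hl]
        have : 7 * s + 1 = s + (6 * s + 1) := by ring
        rw [this, pow_add, pow_succ]
        field_simp
      have h3 : η ^ 2 = θ ^ 2 * (Λ ^ (4 * s))⁻¹ := by
        rw [hη, mul_pow, inv_pow, ← pow_mul]
        congr 3; ring
      rw [h2, h3]
      have h4 : Λ ^ (6 * s) = Λ ^ (4 * s) * Λ ^ (2 * s) := by
        rw [← pow_add]; congr 1; ring
      have h5 : Q * (Λ ^ (6 * s) * Λ)⁻¹ / (θ ^ 2 * (Λ ^ (4 * s))⁻¹) =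
          (Q / (θ ^ 2 * Λ)) * (Λ ^ (2 * s))⁻¹ := by
        rw [h4]; field_simp
      rw [h5]
      have h6 : Q / (θ ^ 2 * Λ) ≤ κ0 / 8 := by
        rw [div_le_iff₀ (by positivity)]
        rw [div_le_iff₀ (by positivity)] at hΛ2
        linarith
      gcongr
    · -- n4
      have h1 : Λ ^ J = Λ ^ (2 * s) * Λ ^ (2 * s) * Λ := by
        rw [hJ, ← pow_add, ← pow_succ]; congr 1; ring
      have h2 : (Λ ^ J)⁻¹ ≤ (Λ ^ (2 * s))⁻¹ * Λ⁻¹ := by
        rw [h1, mul_inv, mul_inv]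
        have h3 : (Λ ^ (2 * s))⁻¹ * (Λ ^ (2 * s))⁻¹ * Λ⁻¹ ≤ (Λ ^ (2 * s))⁻¹ * 1 * Λ⁻¹ := by
          gcongr
        linarith
      have h3 : Λ ^ (2 * s) / Λ ^ J = (Λ ^ (2 * s))⁻¹ * Λ⁻¹ := by
        rw [h1]; field_simp
      rw [h3]
      calc CD * (Λ ^ J)⁻¹ + C4 * (2 * ((Λ ^ (2 * s))⁻¹ * Λ⁻¹))
          ≤ CD * ((Λ ^ (2 * s))⁻¹ * Λ⁻¹) + C4 * (2 * ((Λ ^ (2 * s))⁻¹ * Λ⁻¹)) := by gcongr
        _ = ((CD + 2 * C4) / Λ) * (Λ ^ (2 * s))⁻¹ := by field_simp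
        _ ≤ κ0 / 4 * (Λ ^ (2 * s))⁻¹ := by
            have h6 : (CD + 2 * C4) / Λ ≤ κ0 / 4 := by
              rw [div_le_iff₀ (by positivity)]
              rw [div_le_iff₀ (by positivity)] at hΛ3
              linarith
            gcongr
    · intro n; exact kap_prob σ c C hσ K _ (one_le_pow₀ (by linarith))
    · intro n; exact kap_supp σ c C hσ K _
    · exact hsm
    · exact hK0 (d + K0 + 1) d (by omega)
  · have : 1 ≤ d := by rw [hd]; exact Nat.one_le_two_pow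
    omega

theorem exists_g (t : ℕ) : ∃ (N : ℕ) (_ : 2 ≤ N) (β : ℝ) (_ : 0 < β) (g : E2 → VN N),
    DifferentiableOn ℂ g {z : E2 | ‖z‖ < 1} ∧ ContDiffOn ℂ t g {z : E2 | ‖z‖ ≤ 1} ∧
    ∀ z ∈ S, ‖g z‖ ^ 2 = 1 - ‖(β : ℂ) * exp (z 0)‖ ^ 2 := by
  obtain ⟨s, hs⟩ : ∃ s, s = t + 2 := ⟨_, rfl⟩
  obtain ⟨σ, N, K, J, l, d, Λ, κ0, C1, C4, CD, CP, CX, η, R, H, hN⟩ := exists_cst s (by omega)
  have hΛ := H.hΛ
  have hΛ0 : 0 < Λ := by linarith
  have hCP := H.hCP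
  have hCD := H.hCD
  have hC1 : 0 ≤ C1 := by rw [H.hC1]; positivity
  have hκ0 : 0 < κ0 := by rw [H.hκ0]; positivity
  have hκ01 : κ0 ≤ 1 := by
    rw [H.hκ0, div_le_one (by positivity)]
    exact one_le_pow₀ (by norm_num)
  obtain ⟨β, hβ⟩ : ∃ β : ℝ, β = κ0 * Real.exp (-2) := ⟨_, rfl⟩
  have hβ0 : 0 < β := by rw [hβ]; positivity
  have hbb : ∀ z : E2, ‖z‖ ≤ 2 → ‖bb β z‖ ≤ κ0 := by
    intro z hz; rw [hβ]; exact bb_bound κ0 hκ0 z hz
  have hS2 : ∀ z ∈ S, ‖z‖ ≤ 2 := by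
    intro z hz; have : ‖z‖ = 1 := hz; linarith
  have hbS : ∀ z ∈ S, ‖bb β z‖ ≤ 1 := fun z hz => (hbb z (hS2 z hz)).trans hκ01
  have hbm : Measurable (bb β) := (differentiable_bb β).continuous.measurable
  -- the smoothing estimate for e_0
  have hb0 : ∀ (h : ℕ → E2 → VN N) (n : ℕ), ∀ z ∈ S,
      |((Dop (kap σ K (Λ ^ n)))^[2 * J] (ee (bb β) h 0)) z| ≤ CD * (1 / Λ ^ n) ^ J := by
    intro h n z hz
    let hv : E2 → VN 1 := fun z => EuclideanSpace.single 0 (bb β z)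
    have hvn : ∀ z, ‖hv z‖ = ‖bb β z‖ := fun z => by simp [hv]
    have hvd : Differentiable ℂ hv := by
      have h1 : hv = fun z => (bb β z) • (EuclideanSpace.single (0 : Fin 1) (1 : ℂ)) := by
        funext z
        apply PiLp.ext
        intro i
        fin_cases i
        simp [hv]
      rw [h1]
      exact (differentiable_bb β).smul_const _
    have hBt : ∀ z ∈ Bt (1 / 1), ‖z‖ ≤ 2 := by
      intro z hz
      have h1 : ‖z‖ ^ 2 < 1 + 1 / 1 := hz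
      nlinarith [norm_nonneg z]
    have h1 := H.smooth 1 (Λ ^ n) 1 (one_le_pow₀ (by linarith)) le_rfl 1 zero_le_one hv
      (fun _ => 0) hvd.continuous.measurable measurable_const hvd.differentiableOn
      (differentiableOn_const _) (by
        intro z hz
        rw [hvn]
        have := (hbb z (hBt z hz)).trans hκ01
        exact pow_le_one₀ (norm_nonneg _) this)
      (by intro z ζ _; simp) z hz
    have h2 : (fun z => ‖hv z‖ ^ 2 + 2 * (inner ℂ ((fun _ => (0 : VN 1)) z) (hv z) : ℂ).re) =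
        fun z => ‖bb β z‖ ^ 2 := by
      funext z; simp [hvn]
    have h2' : (fun z => ‖hv z‖ ^ 2 + 2 * (inner ℂ (0 : VN 1) (hv z) : ℂ).re) =
        fun z => ‖bb β z‖ ^ 2 := by
      funext z; simp [hvn]
    rw [h2', one_mul] at h1
    have hκ1 := H.prob n
    have hκs := H.supp n
    have hm2 : Measurable (fun z => ‖bb β z‖ ^ 2) := hbm.norm.pow_const 2
    have hA : ∀ z ∈ S, |‖bb β z‖ ^ 2| ≤ 1 := by
      intro z hz
      rw [abs_of_nonneg (by positivity)]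
      exact pow_le_one₀ (norm_nonneg _) (hbS z hz)
    have h3 := Dop_linear (kap σ K (Λ ^ n)) hκ1 hκs (2 * J) (fun z => ‖bb β z‖ ^ 2)
      (fun z => ‖bb β z‖ ^ 2) hm2 hm2 1 hA hA (-1) 0 z hz
    have hA' : ∀ z ∈ S, |-1 * ‖bb β z‖ ^ 2 + 0 * ‖bb β z‖ ^ 2| ≤ 1 := by
      intro z hz
      have := hA z hz
      rw [show -1 * ‖bb β z‖ ^ 2 + 0 * ‖bb β z‖ ^ 2 = -‖bb β z‖ ^ 2 by ring, abs_neg]
      exact this
    have h4 := Dop_const (kap σ K (Λ ^ n)) hκ1 hκs (2 * J) (by have := H.hJ; omega)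
      (fun z => -1 * ‖bb β z‖ ^ 2 + 0 * ‖bb β z‖ ^ 2)
      ((hm2.const_mul _).add (hm2.const_mul _)) 1 hA' (-1) z hz
    have h5 : (fun z => -1 * ‖bb β z‖ ^ 2 + 0 * ‖bb β z‖ ^ 2 - -1) = ee (bb β) h 0 := by
      funext z; simp [ee, gs]; ring
    rw [h5] at h4
    rw [h4, h3]
    rw [zero_mul, add_zero, neg_one_mul, abs_neg]
    exact h1
  -- the sequence
  obtain ⟨h, hh⟩ := exists_seq (X := E2 → VN N)
    (fun m f => IH σ K J s Λ κ0 C1 C4 (bb β) f m)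
    (fun m f g hfg hI => IH_congr hfg hI)
    (by
      refine ⟨?_, ?_, ?_, ?_, ?_⟩
      · intro i hi; omega
      · intro i hi; omega
      · intro i hi; omega
      · intro i hi; omega
      · intro z hz
        have h1 := hbb z (hS2 z hz)
        have h2 : ‖bb β z‖ ^ 2 ≤ κ0 := by
          have := norm_nonneg (bb β z)
          nlinarith
        simp only [ee, gs, Finset.range_zero, Finset.sum_empty, norm_zero, pow_zero, inv_one,
          mul_one]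
        rw [abs_le]
        constructor <;> nlinarith [sq_nonneg ‖bb β z‖])
    (fun m f hI => step H (bb β) hbm hbS hb0 f m hI)
  have hd : ∀ i, DifferentiableOn ℂ (h i) (Bt (1 / Λ ^ (i + 1))) :=
    fun i => (hh (i + 1)).diff i (by omega)
  have hbd : ∀ i, ∀ z ∈ Bt (1 / Λ ^ (i + 1)), ‖h i z‖ ≤ C1 * ((Λ ^ s) ^ i)⁻¹ :=
    fun i => (hh (i + 1)).bd i (by omega)
  have hsumm : Summable (fun i : ℕ => (C1 * ((Λ ^ s) ^ i)⁻¹) * (Λ ^ (i + 1)) ^ (t + 1)) := by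
    have h1 : (fun i : ℕ => (C1 * ((Λ ^ s) ^ i)⁻¹) * (Λ ^ (i + 1)) ^ (t + 1)) =
        fun i : ℕ => (C1 * Λ ^ (t + 1)) * (Λ⁻¹) ^ i := by
      funext i
      have h2 : (Λ ^ s) ^ i = (Λ ^ i) ^ (t + 1) * Λ ^ i := by
        rw [hs, ← pow_mul, ← pow_mul, ← pow_add]; congr 1; ring
      have h3 : (Λ ^ (i + 1)) ^ (t + 1) = (Λ ^ i) ^ (t + 1) * Λ ^ (t + 1) := by
        rw [pow_succ Λ i, mul_pow]
      rw [h2, h3, inv_pow]
      field_simp
    rw [h1]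
    apply Summable.mul_left
    apply summable_geometric_of_lt_one (by positivity)
    exact inv_lt_one_of_one_lt₀ (by linarith)
  have hC := contDiff_series N (t + 1) h (fun i => Λ ^ (i + 1))
    (fun i => C1 * ((Λ ^ s) ^ i)⁻¹) (fun i => one_le_pow₀ (by linarith)) hd hbd hsumm
  refine ⟨N, hN, β, hβ0, fun z => ∑' i, h i z, ?_, ?_, ?_⟩
  · have h1 : DifferentiableOn ℂ (fun z => ∑' i, h i z) {z : E2 | ‖z‖ ≤ 1} :=
      hC.differentiableOn (by simp)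
    exact h1.mono fun z (hz : ‖z‖ < 1) => (show ‖z‖ ≤ 1 from hz.le)
  · exact hC.of_le (by exact_mod_cast Nat.le_succ t)
  · intro z hz
    have hzB : ∀ i, z ∈ Bt (1 / Λ ^ (i + 1)) := fun i => S_subset_Bt (by positivity) hz
    have hΛs : 1 < Λ ^ s := one_lt_pow₀ (by linarith) (by omega)
    have hsum1 : Summable (fun i : ℕ => C1 * ((Λ ^ s) ^ i)⁻¹) := by
      apply Summable.mul_left
      have h0 : (fun i : ℕ => ((Λ ^ s) ^ i)⁻¹) = fun i : ℕ => ((Λ ^ s)⁻¹) ^ i := by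
        funext i; rw [inv_pow]
      rw [h0]
      exact summable_geometric_of_lt_one (by positivity) (inv_lt_one_of_one_lt₀ hΛs)
    have hsum2 : Summable (fun i => h i z) :=
      Summable.of_norm_bounded hsum1 (fun i => hbd i z (hzB i))
    have ht1 : Filter.Tendsto (fun m => gs h m z) Filter.atTop (nhds (∑' i, h i z)) :=
      hsum2.hasSum.tendsto_sum_nat
    have ht2 : Filter.Tendsto (fun m => ee (bb β) h m z) Filter.atTop
        (nhds (1 - ‖bb β z‖ ^ 2 - ‖∑' i, h i z‖ ^ 2)) := by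
      unfold ee
      exact tendsto_const_nhds.sub (ht1.norm.pow 2)
    have ht3 : Filter.Tendsto (fun m => ee (bb β) h m z) Filter.atTop (nhds 0) := by
      apply squeeze_zero_norm (a := fun m => 2 * ((Λ ^ (2 * s)) ^ m)⁻¹)
      · intro m
        have h1 := abs_le.1 ((hh m).err z hz)
        have h2 : 0 < ((Λ ^ (2 * s)) ^ m)⁻¹ := by positivity
        rw [Real.norm_eq_abs, abs_le]
        constructor <;> nlinarith
      · have h1 : Filter.Tendsto (fun m : ℕ => ((Λ ^ (2 * s))⁻¹) ^ m) Filter.atTop (nhds 0) := by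
          apply tendsto_pow_atTop_nhds_zero_of_lt_one (by positivity)
          exact inv_lt_one_of_one_lt₀ (one_lt_pow₀ (by linarith) (by omega))
        have h2 := h1.const_mul 2
        rw [mul_zero] at h2
        simpa only [inv_pow] using h2
    have h5 := tendsto_nhds_unique ht2 ht3
    have h6 : (β : ℂ) * exp (z 0) = bb β z := rfl
    rw [h6]
    show ‖∑' i, h i z‖ ^ 2 = 1 - ‖bb β z‖ ^ 2
    linarith

end Pool.Agent.BM
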