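import Pool.Agent.Work.MP_e08233_an.Bd.B07

/-! Assembly, part 3: the step. -/

set_option autoImplicit false

open MeasureTheory Complex

namespace Pool.Agent.BM

theorem step {σ : Measure E2} {N K J l s d : ℕ} {Λ κ0 C1 C4 CD CP CX η R : ℝ}
    (H : Cst σ N K J l s d Λ κ0 C1 C4 CD CP CX η R)
    (b : E2 → ℂ) (hb : Measurable b) (hbS : ∀ z ∈ S, ‖b z‖ ≤ 1)
    (hb0 : ∀ (h : ℕ → E2 → VN N) (n : ℕ), ∀ z ∈ S,
      |((Dop (kap σ K (Λ ^ n)))^[2 * J] (ee b h 0)) z| ≤ CD * (1 / Λ ^ n) ^ J)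
    (h : ℕ → E2 → VN N) (m : ℕ) (hI : IH σ K J s Λ κ0 C1 C4 b h m) :
    ∃ x, IH σ K J s Λ κ0 C1 C4 b (Function.update h m x) (m + 1) := by
  have hs := H.hs
  have hΛ := H.hΛ
  have hΛ0 : 0 < Λ := by linarith
  have hCP := H.hCP
  have hη := H.hη
  have hJ := H.hJ
  have hl := H.hl
  have hCD := H.hCD
  have hCX := H.hCX
  have hC1 : 0 ≤ C1 := by rw [H.hC1]; positivity
  have hC1sq : C1 ^ 2 = 4 * CP := by
    rw [H.hC1, Real.sq_sqrt (by linarith)]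
  have hκ0 : 0 < κ0 := by rw [H.hκ0]; positivity
  have hκ01 : κ0 ≤ 1 := by
    rw [H.hκ0, div_le_one (by positivity)]
    exact one_le_pow₀ (by norm_num)
  -- notation
  set q : ℝ := Λ ^ s with hq
  have hq0 : 0 < q := by positivity
  have hq2 : Λ ^ (2 * s) = q ^ 2 := by rw [hq, ← pow_mul, mul_comm]
  set ε : ℝ := ((Λ ^ (2 * s)) ^ m)⁻¹ with hε
  have hε0 : 0 < ε := by positivity
  have hεr : ε = ((q ^ m)⁻¹) ^ 2 := by
    rw [hε, hq2, inv_pow]; congr 1; ring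
  set r : ℝ := (q ^ m)⁻¹ with hr
  have hr0 : 0 < r := by positivity
  set ε' : ℝ := ((Λ ^ (2 * s)) ^ (m + 1))⁻¹ with hε'
  have hε'0 : 0 < ε' := by positivity
  have hεε' : ε' = ε * (Λ ^ (2 * s))⁻¹ := by
    rw [hε', hε, pow_succ, mul_inv]
  have hΛ2s : 4 ≤ Λ ^ (2 * s) := by
    calc (4 : ℝ) = 2 ^ 2 := by norm_num
      _ ≤ Λ ^ 2 := by gcongr
      _ ≤ Λ ^ (2 * s) := pow_le_pow_right₀ (by linarith) (by omega)
  have hε'4 : ε' ≤ ε / 4 := by
    rw [hεε', div_eq_mul_inv]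
    gcongr
  set M' : ℝ := Λ ^ (m + 1) with hM'
  have hM'1 : 1 ≤ M' := one_le_pow₀ (by linarith)
  have hM'0 : 0 < M' := by linarith
  -- bounds on S of the previous maps
  have hbdS : ∀ i < m, ∀ z ∈ S, ‖h i z‖ ≤ C1 := by
    intro i hi z hz
    have h1 := hI.bd i hi z (S_subset_Bt (by positivity) hz)
    refine h1.trans ?_
    have h2 : ((Λ ^ s) ^ i)⁻¹ ≤ 1 := by
      apply inv_le_one_of_one_le₀
      exact one_le_pow₀ (one_le_pow₀ (by linarith))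
    calc C1 * ((Λ ^ s) ^ i)⁻¹ ≤ C1 * 1 := by gcongr
      _ = C1 := mul_one _
  set κ := kap σ K M' with hκdef
  have hκ1 : IsProbabilityMeasure κ := H.prob (m + 1)
  have hκs : κ Sᶜ = 0 := H.supp (m + 1)
  have hmee : Measurable (ee b h m) := measurable_ee hb hI.meas
  have heeA : ∀ z ∈ S, |ee b h m z| ≤ 2 * ε := by
    intro z hz
    have h1 := abs_le.1 (hI.err z hz)
    rw [abs_le]
    constructor <;> nlinarith
  -- the density
  let E : E2 → ℝ := fun z => ∑ j ∈ Finset.range (2 * J), ((Dop κ)^[j] (fun z => ee b h m z - ε')) z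
  have hEm : Measurable E := by
    refine Finset.measurable_sum _ fun j _ => ?_
    exact Dop_meas κ hκ1 j _ (hmee.sub_const _)
  have hEb : ∀ z ∈ S, 0 ≤ E z ∧ E z ≤ 2 * ε :=
    E_bounds κ hκ1 hκs (2 * J) (by omega) (ee b h m) hmee ε ε' κ0 hε0 H.hκ0 hε'0.le hε'4 hI.err
  -- T E = u - D^I e_m
  have hTE : ∀ z ∈ S, Top κ E z = (ee b h m z - ε') - ((Dop κ)^[2 * J] (ee b h m)) z := by
    intro z hz
    have hA : ∀ z ∈ S, |ee b h m z - ε'| ≤ 2 * ε + ε' := by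
      intro z hz
      have h1 := abs_le.1 (heeA z hz)
      rw [abs_le]; constructor <;> linarith
    have h1 := Top_neumann κ hκ1 hκs (2 * J) (fun z => ee b h m z - ε') (hmee.sub_const _)
      (2 * ε + ε') hA z hz
    rw [Dop_const κ hκ1 hκs (2 * J) (by omega) (ee b h m) hmee (2 * ε) heeA ε' z hz] at h1
    exact h1
  -- D^I e_m small
  have hDI : ∀ z ∈ S, |((Dop κ)^[2 * J] (ee b h m)) z| ≤ ε * (κ0 / 4 * (Λ ^ (2 * s))⁻¹) := by
    intro z hz
    rw [Dop_ee κ hκ1 hκs (2 * J) b hb hbS h m C1 hI.meas hbdS z hz]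
    have h1 := hb0 h (m + 1) z hz
    have h2 : |∑ i ∈ Finset.range m, ((Dop κ)^[2 * J] (uu (gs h i) (h i))) z| ≤
        ε * (C4 * (2 * (Λ ^ (2 * s) / Λ ^ J))) := by
      have hC4 : 0 ≤ C4 := by rw [H.hC4]; positivity
      calc |∑ i ∈ Finset.range m, ((Dop κ)^[2 * J] (uu (gs h i) (h i))) z|
          ≤ ∑ i ∈ Finset.range m, |((Dop κ)^[2 * J] (uu (gs h i) (h i))) z| :=
            Finset.abs_sum_le_sum_abs _ _
        _ ≤ ∑ i ∈ Finset.range m, (C4 * ((Λ ^ (2 * s)) ^ i)⁻¹) * (Λ ^ (i + 1) / Λ ^ (m + 1)) ^ J := by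
            refine Finset.sum_le_sum fun i hi => ?_
            have hi' := Finset.mem_range.1 hi
            exact hI.sm i hi' (m + 1) (by omega) z hz
        _ ≤ ((Λ ^ (2 * s)) ^ m)⁻¹ * (C4 * (2 * (Λ ^ (2 * s) / Λ ^ J))) :=
            sum_Bi C4 Λ s J m hC4 hΛ (by omega)
    have h3 : CD * (1 / Λ ^ (m + 1)) ^ J ≤ ε * (CD * (Λ ^ J)⁻¹) := by
      have h4 : (1 / Λ ^ (m + 1)) ^ J = ((Λ ^ J) ^ m)⁻¹ * (Λ ^ J)⁻¹ := by
        rw [one_div, inv_pow, ← mul_inv]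
        congr 1
        rw [← pow_mul, ← pow_mul, ← pow_add]
        congr 1; ring
      have h5 : ((Λ ^ J) ^ m)⁻¹ ≤ ε := by
        rw [hε]
        have : Λ ^ (2 * s) ≤ Λ ^ J := pow_le_pow_right₀ (by linarith) (by omega)
        gcongr
      rw [h4]
      calc CD * (((Λ ^ J) ^ m)⁻¹ * (Λ ^ J)⁻¹) ≤ CD * (ε * (Λ ^ J)⁻¹) := by gcongr
        _ = ε * (CD * (Λ ^ J)⁻¹) := by ring
    have h6 : ε * (CD * (Λ ^ J)⁻¹) + ε * (C4 * (2 * (Λ ^ (2 * s) / Λ ^ J))) ≤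
        ε * (κ0 / 4 * (Λ ^ (2 * s))⁻¹) := by
      rw [← mul_add]
      exact mul_le_mul_of_nonneg_left H.n4 hε0.le
    calc |((Dop κ)^[2 * J] (ee b h 0)) z - ∑ i ∈ Finset.range m, ((Dop κ)^[2 * J] (uu (gs h i) (h i))) z|
        ≤ |((Dop κ)^[2 * J] (ee b h 0)) z| + |∑ i ∈ Finset.range m, ((Dop κ)^[2 * J] (uu (gs h i) (h i))) z| :=
          abs_sub _ _
      _ ≤ ε * (κ0 / 4 * (Λ ^ (2 * s))⁻¹) := by linarith
  -- jets and packets
  obtain ⟨W, hW1, hW2⟩ := exists_W (N := N) l m (by omega) Λ hΛ h hI.diff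
  obtain ⟨n, p, v, cf, hp, hv, hvW, hcf, hsum, hn1, hn2⟩ := H.pack M' hM'1 E (2 * ε) hEm
    (by positivity) hEb W (by rw [H.hd]; exact hW1)
  let x : E2 → VN N := fun z => ∑ α, ((cf α : ℂ) * pk K M' (p α) z) • v α
  have hxm : Measurable x := by
    refine Finset.measurable_sum _ fun α _ => ?_
    exact ((measurable_pk K M' (p α)).const_mul _).smul_const _
  have hxd : DifferentiableOn ℂ x (Bt (1 / M')) := by
    refine DifferentiableOn.fun_sum fun α _ => ?_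
    exact ((differentiableOn_pk hM'1 (hp α)).const_mul _).smul_const _
  have hx2 : ∀ z ∈ Bt (1 / M'), ‖x z‖ ^ 2 ≤ 4 * CP * ε := by
    intro z hz
    refine (hn1 z hz).trans ?_
    have h1 : CP * (2 * ε) * (1 + (4 / R ^ 2) ^ (K - 3) / η ^ 4) ≤ CP * (2 * ε) * (1 + 1) := by
      have := H.n2
      gcongr
    linarith
  have hx1 : ∀ z ∈ Bt (1 / M'), ‖x z‖ ≤ C1 * r := by
    intro z hz
    have h1 := hx2 z hz
    have h2 : ‖x z‖ ^ 2 ≤ (C1 * r) ^ 2 := by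
      rw [mul_pow, hC1sq, ← hεr]; exact h1
    exact (pow_le_pow_iff_left₀ (norm_nonneg _) (by positivity) two_ne_zero).1 h2
  -- cross terms
  have hcross : ∀ z ζ, Cmp M' z ζ → ‖(inner ℂ (gs h m ζ) (x z) : ℂ)‖ ≤ κ0 / 8 * ε' := by
    intro z ζ hc
    have hcf' : ∀ α, 0 ≤ cf α ∧ cf α ≤ Real.sqrt (2 * CP) * η ^ 2 * r := by
      intro α
      refine ⟨(hcf α).1, ?_⟩
      have h1 := (hcf α).2
      have h2 : cf α ^ 2 ≤ (Real.sqrt (2 * CP) * η ^ 2 * r) ^ 2 := by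
        rw [mul_pow, mul_pow, Real.sq_sqrt (by linarith), ← hεr]
        calc cf α ^ 2 ≤ CP * (2 * ε) * η ^ 4 := h1
          _ = 2 * CP * (η ^ 2) ^ 2 * ε := by ring
      exact (pow_le_pow_iff_left₀ (hcf α).1 (by positivity) two_ne_zero).1 h2
    have h1 := H.cross N m h (fun i => Λ ^ (i + 1)) (fun i => C1 * ((Λ ^ s) ^ i)⁻¹) M' hM'1
      (by
        intro i hi
        refine ⟨one_le_pow₀ (by linarith), ?_, by positivity⟩
        exact pow_le_pow_right₀ (by linarith) (by omega))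
      hI.diff hI.bd n p v cf (Real.sqrt (2 * CP) * η ^ 2 * r) hp hv hcf'
      (fun α w k hk => hW2 (p α) (hp α) (v α) (hvW α) w k hk) z ζ hc
    have h2 := sum_Ai C1 Λ s l m hC1 hΛ (by omega)
    have h3 := hsum z hc.1
    have h4 : 0 ≤ ∑ α, ((1 + M' * dl z (p α)) ^ 3)⁻¹ := by
      refine Finset.sum_nonneg fun α _ => ?_
      have := dl_nonneg z (p α)
      positivity
    have h5 : 0 ≤ ∑ i ∈ Finset.range m, C1 * ((Λ ^ s) ^ i)⁻¹ * (Λ ^ (i + 1) / M') ^ l :=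
      Finset.sum_nonneg fun i _ => by positivity
    calc ‖(inner ℂ (gs h m ζ) (x z) : ℂ)‖
        ≤ CX * (Real.sqrt (2 * CP) * η ^ 2 * r) *
          (∑ i ∈ Finset.range m, C1 * ((Λ ^ s) ^ i)⁻¹ * (Λ ^ (i + 1) / M') ^ l) *
            ∑ α, ((1 + M' * dl z (p α)) ^ 3)⁻¹ := h1
      _ ≤ CX * (Real.sqrt (2 * CP) * η ^ 2 * r) *
          (((Λ ^ s) ^ m)⁻¹ * (C1 * (2 * (Λ ^ s / Λ ^ l)))) * (CP / η ^ 4) := by
          gcongr
      _ = (CX * (Real.sqrt (2 * CP) * η ^ 2) * (C1 * (2 * (Λ ^ s / Λ ^ l))) * (CP / η ^ 4)) * r ^ 2 := by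
          rw [← hq, ← hr]; ring
      _ ≤ (κ0 / 8 * (Λ ^ (2 * s))⁻¹) * r ^ 2 := by
          exact mul_le_mul_of_nonneg_right H.n3 (by positivity)
      _ = κ0 / 8 * ε' := by rw [hεε', hεr]; ring
  have hcross' : ∀ z ζ, Cmp M' z ζ → ‖(inner ℂ (gs h m ζ) (x z) : ℂ)‖ ≤ 4 * CP * ε := by
    intro z ζ hc
    refine (hcross z ζ hc).trans ?_
    nlinarith
  have hcmpS : ∀ z ∈ S, Cmp M' z z := by
    intro z hz
    refine ⟨S_subset_Bt (by positivity) hz, S_subset_Bt (by positivity) hz, fun p _ => ?_⟩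
    have := dl_nonneg z p
    nlinarith [mul_nonneg hM'0.le this]
  refine ⟨x, ?_⟩
  have hupd : ∀ i < m, h i = Function.update h m x i := by
    intro i hi
    rw [Function.update_of_ne (by omega)]
  have hgm : gs (Function.update h m x) m = gs h m := (gs_congr hupd).symm
  have hem : ee b (Function.update h m x) m = ee b h m := (ee_congr hupd).symm
  have hI' := IH_congr hupd hI
  have hgdiff : DifferentiableOn ℂ (gs h m) (Bt (1 / M')) := by
    unfold gs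
    refine DifferentiableOn.fun_sum fun i hi => ?_
    have hi' := Finset.mem_range.1 hi
    refine (hI.diff i hi').mono (Bt_mono ?_)
    apply one_div_le_one_div_of_le (by positivity)
    exact pow_le_pow_right₀ (by linarith) (by omega)
  refine ⟨?_, ?_, ?_, ?_, ?_⟩
  · intro i hi
    rcases Nat.lt_succ_iff_lt_or_eq.1 hi with hi' | rfl
    · exact hI'.meas i hi'
    · rw [Function.update_self]; exact hxm
  · intro i hi
    rcases Nat.lt_succ_iff_lt_or_eq.1 hi with hi' | rfl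
    · exact hI'.diff i hi'
    · rw [Function.update_self]; exact hxd
  · intro i hi
    rcases Nat.lt_succ_iff_lt_or_eq.1 hi with hi' | rfl
    · exact hI'.bd i hi'
    · rw [Function.update_self]; exact hx1
  · intro i hi
    rcases Nat.lt_succ_iff_lt_or_eq.1 hi with hi' | rfl
    · exact hI'.sm i hi'
    · rw [Function.update_self, hgm]
      intro n hn z hz
      have h1 := H.smooth N (Λ ^ n) M' (one_le_pow₀ (by linarith)) hM'1 (4 * CP * ε) (by positivity)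
        x (gs h i) hxm (measurable_gs hI.meas) hxd hgdiff hx2 hcross' z hz
      have h2 : 4 * CP * ε * CD * (M' / Λ ^ n) ^ J =
          C4 * ((Λ ^ (2 * s)) ^ i)⁻¹ * (Λ ^ (i + 1) / Λ ^ n) ^ J := by
        rw [H.hC4]; ring
      rw [← h2]
      exact h1
  · intro z hz
    rw [ee_succ, hem, hgm, Function.update_self]
    have h1 := hn2 z hz
    have h2 := hTE z hz
    have h3 := hDI z hz
    have h4 := hcross z z (hcmpS z hz)
    have h5 : |(inner ℂ (gs h m z) (x z) : ℂ).re| ≤ κ0 / 8 * ε' :=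
      (Complex.abs_re_le_norm _).trans h4
    have h6 : CP * (2 * ε) * (η + (4 / R ^ 2) ^ (K - 3) / η ^ 4) ≤ κ0 / 4 * ε' := by
      calc CP * (2 * ε) * (η + (4 / R ^ 2) ^ (K - 3) / η ^ 4)
          = (CP * 2 * (η + (4 / R ^ 2) ^ (K - 3) / η ^ 4)) * ε := by ring
        _ ≤ (κ0 / 4 * (Λ ^ (2 * s))⁻¹) * ε := mul_le_mul_of_nonneg_right H.n1 hε0.le
        _ = κ0 / 4 * ε' := by rw [hεε']; ring
    have h7 : ε * (κ0 / 4 * (Λ ^ (2 * s))⁻¹) = κ0 / 4 * ε' := by rw [hεε']; ring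
    rw [h7] at h3
    change |‖x z‖ ^ 2 - Top κ E z| ≤ _ at h1
    have h8 : |‖x z‖ ^ 2 - Top κ E z| ≤ κ0 / 4 * ε' := h1.trans h6
    unfold uu
    rw [h2] at h8
    have a3 := abs_le.1 h3
    have a5 := abs_le.1 h5
    have a8 := abs_le.1 h8
    rw [abs_le]
    constructor <;> linarith

end Pool.Agent.BM
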