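import Pool.Agent.Work.MP_e08233_an.Defs

/-! Basic algebra for the proof of S06446: the product act, the matrix k_q, and the two
geometric inequalities for dl. -/

set_option autoImplicit false

open MeasureTheory Complex

namespace Pool.Agent.BM

theorem inner_eq (p z : E2) : (inner ℂ p z : ℂ) = (starRingEnd ℂ) (p 0) * z 0 + (starRingEnd ℂ) (p 1) * z 1 := by
  simp [PiLp.inner_apply, Fin.sum_univ_two]
  ring

theorem norm_sq_eq (z : E2) : ‖z‖ ^ 2 = ‖z 0‖ ^ 2 + ‖z 1‖ ^ 2 := by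
  rw [EuclideanSpace.norm_sq_eq]; simp [Fin.sum_univ_two]

@[simp] theorem Jm_zero' (z : E2) : (Jm z) 0 = -(starRingEnd ℂ (z 1)) := by simp [Jm]

@[simp] theorem Jm_one' (z : E2) : (Jm z) 1 = (starRingEnd ℂ (z 0)) := by simp [Jm]

@[simp] theorem act_zero' (z q : E2) : (act z q) 0 = q 0 * z 0 - q 1 * (starRingEnd ℂ (z 1)) := by
  simp [act]; ring

@[simp] theorem act_one' (z q : E2) : (act z q) 1 = q 0 * z 1 + q 1 * (starRingEnd ℂ (z 0)) := by
  simp [act]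

theorem E2_ext {x y : E2} (h0 : x 0 = y 0) (h1 : x 1 = y 1) : x = y := by
  ext i
  fin_cases i
  · exact h0
  · exact h1

theorem norm_Jm (z : E2) : ‖Jm z‖ = ‖z‖ := by
  have h : ‖Jm z‖ ^ 2 = ‖z‖ ^ 2 := by
    rw [norm_sq_eq, norm_sq_eq]; simp; ring
  exact (pow_left_inj₀ (norm_nonneg _) (norm_nonneg _) two_ne_zero).1 h

theorem Jm_Jm (z : E2) : Jm (Jm z) = -z := by
  apply E2_ext <;> simp

theorem Jm_smul (c : ℂ) (z : E2) : Jm (c • z) = (starRingEnd ℂ c) • Jm z := by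
  apply E2_ext <;> simp

theorem Jm_add (z w : E2) : Jm (z + w) = Jm z + Jm w := by
  apply E2_ext <;> simp
  ring

theorem inner_Jm_right (z : E2) : (inner ℂ z (Jm z) : ℂ) = 0 := by
  rw [inner_eq]; simp; ring

theorem inner_Jm_left (z : E2) : (inner ℂ (Jm z) z : ℂ) = 0 := by
  rw [inner_eq]; simp; ring

theorem Jm_act (z q : E2) :
    Jm (act z q) = (starRingEnd ℂ (q 0)) • Jm z - (starRingEnd ℂ (q 1)) • z := by
  apply E2_ext <;> simp
  ring

theorem act_assoc (z q q' : E2) : act (act z q) q' = act z (act q q') := by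
  apply E2_ext <;> simp <;> ring

theorem inner_act (z q q' : E2) :
    (inner ℂ (act z q) (act z q') : ℂ) = ((‖z‖ ^ 2 : ℝ) : ℂ) * inner ℂ q q' := by
  rw [inner_eq, inner_eq, norm_sq_eq]
  push_cast
  rw [← Complex.conj_mul', ← Complex.conj_mul']
  simp
  ring

theorem norm_act (z q : E2) : ‖act z q‖ = ‖z‖ * ‖q‖ := by
  have h : ‖act z q‖ ^ 2 = (‖z‖ * ‖q‖) ^ 2 := by
    have h1 := inner_act z q q
    rw [inner_self_eq_norm_sq_to_K, inner_self_eq_norm_sq_to_K] at h1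
    have h2 : ((‖act z q‖ ^ 2 : ℝ) : ℂ) = ((‖z‖ ^ 2 * ‖q‖ ^ 2 : ℝ) : ℂ) := by
      push_cast; push_cast at h1; simpa using h1
    have h3 := Complex.ofReal_injective h2
    rw [h3]; ring
  exact (pow_left_inj₀ (norm_nonneg _) (by positivity) two_ne_zero).1 h

theorem act_mem_S {z q : E2} (hz : z ∈ S) (hq : q ∈ S) : act z q ∈ S := by
  have h1 : ‖z‖ = 1 := hz
  have h2 : ‖q‖ = 1 := hq
  show ‖act z q‖ = 1
  rw [norm_act, h1, h2, one_mul]

/-- the identity element of the group -/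
noncomputable def e1 : E2 := EuclideanSpace.single 0 1

@[simp] theorem e1_zero : e1 0 = 1 := by simp [e1]
@[simp] theorem e1_one : e1 1 = 0 := by simp [e1]

theorem e1_mem_S : e1 ∈ S := by simp [S, e1]

theorem act_e1 (z : E2) : act z e1 = z := by
  apply E2_ext <;> simp

theorem e1_act (z : E2) : act e1 z = z := by
  apply E2_ext <;> simp

theorem kq_mul (p q : E2) : kq p * kq q = kq (act p q) := by
  ext i j
  fin_cases i <;> fin_cases j <;> simp [kq, Matrix.mul_apply, Fin.sum_univ_two] <;> ring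

theorem kq_e1 : kq e1 = 1 := by
  ext i j
  fin_cases i <;> fin_cases j <;> simp [kq]

theorem zy_kq (z0 q : E2) : zy z0 (kq q) = act z0 q := by
  simp [zy, kq, act]

theorem ey_kq (z0 q : E2) : ey z0 (kq q) = act z0 q := by
  simp [ey, kq, act]

theorem continuous_Jm : Continuous Jm := by
  unfold Jm
  refine (PiLp.continuous_toLp 2 _).comp ?_
  refine continuous_pi fun i => ?_
  fin_cases i
  · exact (Complex.continuous_conj.comp (EuclideanSpace.proj (𝕜 := ℂ) (1 : Fin 2)).continuous).neg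
  · exact (Complex.continuous_conj.comp (EuclideanSpace.proj (𝕜 := ℂ) (0 : Fin 2)).continuous)

theorem continuous_coord (i : Fin 2) : Continuous (fun z : E2 => z i) :=
  (EuclideanSpace.proj (𝕜 := ℂ) i).continuous

theorem continuous_act2 : Continuous fun x : E2 × E2 => act x.1 x.2 := by
  unfold act
  exact (((continuous_coord 0).comp continuous_snd).smul continuous_fst).add
    (((continuous_coord 1).comp continuous_snd).smul (continuous_Jm.comp continuous_fst))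

theorem continuous_act (z : E2) : Continuous (act z) :=
  continuous_act2.comp (continuous_const.prodMk continuous_id)

theorem isClosed_S : IsClosed S := by
  unfold S
  exact isClosed_eq continuous_norm continuous_const

theorem isOpen_Bt (τ : ℝ) : IsOpen (Bt τ) := by
  unfold Bt
  exact isOpen_lt (continuous_norm.pow 2) continuous_const

theorem continuous_dl2 : Continuous fun x : E2 × E2 => dl x.1 x.2 := by
  unfold dl
  exact (continuous_const.sub (continuous_snd.inner continuous_fst)).norm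

theorem dl_nonneg (z p : E2) : 0 ≤ dl z p := norm_nonneg _

theorem dl_comm (p q : E2) : dl p q = dl q p := by
  unfold dl
  rw [← inner_conj_symm q p, ← Complex.norm_conj]
  simp

theorem dl_self {p : E2} (hp : p ∈ S) : dl p p = 0 := by
  unfold dl
  rw [inner_self_eq_norm_sq_to_K]
  have : ‖p‖ = 1 := hp
  simp [this]

theorem dl_act (z q q' : E2) (hz : z ∈ S) : dl (act z q) (act z q') = dl q q' := by
  unfold dl
  rw [inner_act]
  have : ‖z‖ = 1 := hz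
  simp [this]

theorem dl_e1 (q : E2) : dl q e1 = ‖1 - q 0‖ := by
  unfold dl
  rw [inner_eq]; simp

theorem S_subset_Bt {τ : ℝ} (hτ : 0 < τ) : S ⊆ Bt τ := by
  intro z hz
  have : ‖z‖ = 1 := hz
  simp [Bt, this, hτ]

theorem Bt_mono {τ τ' : ℝ} (h : τ ≤ τ') : Bt τ ⊆ Bt τ' := by
  intro z hz
  have : ‖z‖ ^ 2 < 1 + τ := hz
  show ‖z‖ ^ 2 < 1 + τ'
  linarith

/-- Pythagoras in the frame (p, Jm p) -/
theorem frame_decomp (p z : E2) (hp : p ∈ S) :
    z = (inner ℂ p z : ℂ) • p + (inner ℂ (Jm p) z : ℂ) • Jm p := by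
  have h1 : ‖p 0‖ ^ 2 + ‖p 1‖ ^ 2 = 1 := by
    rw [← norm_sq_eq]; have : ‖p‖ = 1 := hp; simp [this]
  have h2 : (starRingEnd ℂ) (p 0) * p 0 + (starRingEnd ℂ) (p 1) * p 1 = 1 := by
    rw [Complex.conj_mul', Complex.conj_mul']
    exact_mod_cast h1
  apply E2_ext
  · simp [inner_eq]
    linear_combination (-(z 0)) * h2
  · simp [inner_eq]
    linear_combination (-(z 1)) * h2

theorem norm_sq_frame (p z : E2) (hp : p ∈ S) :
    ‖z‖ ^ 2 = ‖(inner ℂ p z : ℂ)‖ ^ 2 + ‖(inner ℂ (Jm p) z : ℂ)‖ ^ 2 := by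
  have h1 : ‖p 0‖ ^ 2 + ‖p 1‖ ^ 2 = 1 := by
    rw [← norm_sq_eq]; have : ‖p‖ = 1 := hp; simp [this]
  have h2 : (starRingEnd ℂ) (p 0) * p 0 + (starRingEnd ℂ) (p 1) * p 1 = 1 := by
    rw [Complex.conj_mul', Complex.conj_mul']
    exact_mod_cast h1
  have key : ((‖z‖ ^ 2 : ℝ) : ℂ) =
      ((‖(inner ℂ p z : ℂ)‖ ^ 2 + ‖(inner ℂ (Jm p) z : ℂ)‖ ^ 2 : ℝ) : ℂ) := by
    rw [norm_sq_eq]
    push_cast
    simp only [← Complex.conj_mul']
    rw [inner_eq, inner_eq]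
    simp
    linear_combination (-(starRingEnd ℂ (z 0) * z 0 + starRingEnd ℂ (z 1) * z 1)) * h2
  exact_mod_cast Complex.ofReal_injective key

/-- for complex a : 1 - |a|^2 ≤ 2 |1 - a| -/
theorem one_sub_normSq_le (a : ℂ) : 1 - ‖a‖ ^ 2 ≤ 2 * ‖1 - a‖ := by
  have h1 : 1 - ‖a‖ ≤ ‖1 - a‖ := by
    have := norm_sub_norm_le (1 : ℂ) a
    simpa using this
  have h0 : 0 ≤ ‖a‖ := norm_nonneg a
  have h2 : 0 ≤ ‖1 - a‖ := norm_nonneg _
  by_cases h : ‖a‖ ≤ 1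
  · nlinarith
  · push Not at h
    nlinarith

theorem normSq_inner_Jm_le (p z : E2) (hp : p ∈ S) (τ : ℝ) (hz : ‖z‖ ^ 2 ≤ 1 + τ) :
    ‖(inner ℂ (Jm p) z : ℂ)‖ ^ 2 ≤ τ + 2 * dl z p := by
  have h1 := norm_sq_frame p z hp
  have h2 := one_sub_normSq_le (inner ℂ p z)
  unfold dl
  linarith

/-- (G1) -/
theorem inner_sub_inner_le (p q z : E2) (hp : p ∈ S) (hq : q ∈ S) (τ : ℝ)
    (hz : ‖z‖ ^ 2 ≤ 1 + τ) :
    ‖(inner ℂ p z : ℂ) - inner ℂ q z‖ ≤
      ‖z‖ * dl p q + Real.sqrt (τ + 2 * dl z p) * Real.sqrt (2 * dl p q) := by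
  have hz' := frame_decomp p z hp
  have hpp : (inner ℂ p p : ℂ) = 1 := by
    rw [inner_self_eq_norm_sq_to_K]; have : ‖p‖ = 1 := hp; simp [this]
  set a : ℂ := inner ℂ p z with ha
  set b : ℂ := inner ℂ (Jm p) z with hb
  have h1 : (inner ℂ q z : ℂ) = a * inner ℂ q p + b * inner ℂ q (Jm p) := by
    conv_lhs => rw [hz']
    rw [inner_add_right, inner_smul_right, inner_smul_right]
  have h2 : a - inner ℂ q z = a * (1 - inner ℂ q p) - b * inner ℂ q (Jm p) := by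
    rw [h1]; ring
  rw [h2]
  have h3 : ‖a‖ ≤ ‖z‖ := by
    have := norm_inner_le_norm (𝕜 := ℂ) p z
    have hp1 : ‖p‖ = 1 := hp
    rw [hp1, one_mul] at this
    exact this
  have h4 : ‖b‖ ≤ Real.sqrt (τ + 2 * dl z p) := by
    apply Real.le_sqrt_of_sq_le
    exact normSq_inner_Jm_le p z hp τ hz
  have h5 : ‖(inner ℂ q (Jm p) : ℂ)‖ ≤ Real.sqrt (2 * dl p q) := by
    rw [← inner_conj_symm, Complex.norm_conj]
    apply Real.le_sqrt_of_sq_le
    have := normSq_inner_Jm_le p q hp 0 (by have : ‖q‖ = 1 := hq; simp [this])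
    rw [dl_comm p q]
    linarith
  calc ‖a * (1 - inner ℂ q p) - b * inner ℂ q (Jm p)‖
      ≤ ‖a * (1 - inner ℂ q p)‖ + ‖b * inner ℂ q (Jm p)‖ := norm_sub_le _ _
    _ = ‖a‖ * dl p q + ‖b‖ * ‖(inner ℂ q (Jm p) : ℂ)‖ := by
        rw [norm_mul, norm_mul]; rfl
    _ ≤ ‖z‖ * dl p q + Real.sqrt (τ + 2 * dl z p) * Real.sqrt (2 * dl p q) := by
        have := dl_nonneg p q
        gcongr

/-- (G2) quasi triangle inequality -/
theorem dl_quasi (p q z : E2) (hp : p ∈ S) (hq : q ∈ S) (τ : ℝ) (hτ : 0 ≤ τ)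
    (hz : ‖z‖ ^ 2 ≤ 1 + τ) :
    dl p q ≤ 4 * (dl z p + dl z q + τ) := by
  have hp1 : ‖p‖ = 1 := hp
  have hq1 : ‖q‖ = 1 := hq
  have hpp : (inner ℂ p p : ℂ) = 1 := by
    rw [inner_self_eq_norm_sq_to_K]; simp [hp1]
  have key : ∀ r : E2, r ∈ S → ‖r - z‖ ^ 2 ≤ τ + 2 * dl z r := by
    intro r hr
    have hr1 : ‖r‖ = 1 := hr
    rw [@norm_sub_sq ℂ, hr1]
    have h1 : (RCLike.re (inner ℂ r z : ℂ) : ℝ) = 1 - (1 - (inner ℂ r z : ℂ)).re := by
      simp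
    have h2 : (1 - (inner ℂ r z : ℂ)).re ≤ dl z r := Complex.re_le_norm _
    rw [h1]
    linarith
  have h1 := key p hp
  have h2 := key q hq
  have hd : (1 : ℂ) - inner ℂ q p = (1 - inner ℂ q z) - (inner ℂ p (p - z) + inner ℂ (q - p) (p - z)) := by
    rw [inner_sub_left, inner_sub_right, inner_sub_right]
    ring
  have h3 : ‖(inner ℂ p (p - z) : ℂ)‖ = dl z p := by
    unfold dl
    rw [inner_sub_right, hpp]
  have h4 : ‖(inner ℂ (q - p) (p - z) : ℂ)‖ ≤ ‖q - p‖ * ‖p - z‖ := norm_inner_le_norm _ _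
  have h5 : ‖q - p‖ ≤ ‖q - z‖ + ‖p - z‖ := by
    have : q - p = (q - z) - (p - z) := by abel
    rw [this]; exact norm_sub_le _ _
  have h6 : dl p q ≤ dl z q + (dl z p + ‖q - p‖ * ‖p - z‖) := by
    unfold dl
    rw [hd]
    calc ‖(1 - (inner ℂ q z : ℂ)) - (inner ℂ p (p - z) + inner ℂ (q - p) (p - z))‖
        ≤ ‖1 - (inner ℂ q z : ℂ)‖ + ‖(inner ℂ p (p - z) : ℂ) + inner ℂ (q - p) (p - z)‖ :=
          norm_sub_le _ _
      _ ≤ ‖1 - (inner ℂ q z : ℂ)‖ + (‖(inner ℂ p (p - z) : ℂ)‖ + ‖(inner ℂ (q - p) (p - z) : ℂ)‖) := by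
          gcongr; exact norm_add_le _ _
      _ ≤ ‖1 - (inner ℂ q z : ℂ)‖ + (‖1 - (inner ℂ p z : ℂ)‖ + ‖q - p‖ * ‖p - z‖) := by
          rw [h3]; gcongr; exact le_refl _
  have h7 : 0 ≤ ‖p - z‖ := norm_nonneg _
  have h8 : 0 ≤ ‖q - z‖ := norm_nonneg _
  have h9 : ‖q - p‖ * ‖p - z‖ ≤ (‖q - z‖ + ‖p - z‖) * ‖p - z‖ := by gcongr
  have h10 : (‖q - z‖ + ‖p - z‖) * ‖p - z‖ ≤ 3 / 2 * ‖p - z‖ ^ 2 + 1 / 2 * ‖q - z‖ ^ 2 := by
    nlinarith [sq_nonneg (‖q - z‖ - ‖p - z‖)]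
  have h11 := dl_nonneg z p
  have h12 := dl_nonneg z q
  linarith

theorem re_den {M : ℝ} (hM : 1 ≤ M) {p z : E2} (hp : p ∈ S) (hz : z ∈ Bt (1 / M)) :
    1 / 2 ≤ (1 + (M : ℂ) * (1 - inner ℂ p z)).re := by
  have hp1 : ‖p‖ = 1 := hp
  have hM0 : 0 < M := by linarith
  have hz' : ‖z‖ ^ 2 < 1 + 1 / M := hz
  have h1 : (inner ℂ p z : ℂ).re ≤ ‖z‖ := by
    calc (inner ℂ p z : ℂ).re ≤ ‖(inner ℂ p z : ℂ)‖ := Complex.re_le_norm _
      _ ≤ ‖p‖ * ‖z‖ := norm_inner_le_norm _ _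
      _ = ‖z‖ := by rw [hp1, one_mul]
  have h2 : ‖z‖ ≤ 1 + 1 / (2 * M) := by
    have h3 : ‖z‖ ^ 2 ≤ (1 + 1 / (2 * M)) ^ 2 := by
      have : (1 + 1 / (2 * M)) ^ 2 = 1 + 1 / M + (1 / (2 * M)) ^ 2 := by
        field_simp; ring
      rw [this]
      have : 0 ≤ (1 / (2 * M)) ^ 2 := by positivity
      linarith
    exact (pow_le_pow_iff_left₀ (norm_nonneg _) (by positivity) two_ne_zero).1 h3
  have h4 : (1 + (M : ℂ) * (1 - inner ℂ p z)).re = 1 + M * (1 - (inner ℂ p z : ℂ).re) := by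
    simp
  rw [h4]
  have h5 : M * (1 - (inner ℂ p z : ℂ).re) ≥ M * (-(1 / (2 * M))) := by
    apply mul_le_mul_of_nonneg_left _ hM0.le
    linarith
  have h6 : M * (-(1 / (2 * M))) = -(1 / 2) := by field_simp
  linarith

theorem den_lower {M : ℝ} (hM : 1 ≤ M) {p z : E2} (hp : p ∈ S) (hz : z ∈ Bt (1 / M)) :
    (1 + M * dl z p) / 6 ≤ ‖1 + (M : ℂ) * (1 - inner ℂ p z)‖ := by
  have h1 := re_den hM hp hz
  have h2 : (1 + (M : ℂ) * (1 - inner ℂ p z)).re ≤ ‖1 + (M : ℂ) * (1 - inner ℂ p z)‖ :=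
    Complex.re_le_norm _
  have h3 : M * dl z p - 1 ≤ ‖1 + (M : ℂ) * (1 - inner ℂ p z)‖ := by
    have h4 : ‖(M : ℂ) * (1 - inner ℂ p z)‖ = M * dl z p := by
      rw [norm_mul, Complex.norm_real, Real.norm_of_nonneg (by linarith)]; rfl
    have h5 := norm_sub_le (1 + (M : ℂ) * (1 - inner ℂ p z)) 1
    rw [add_sub_cancel_left, h4] at h5
    simp at h5
    linarith
  linarith

theorem den_upper {M : ℝ} (hM : 0 ≤ M) (p z : E2) :
    ‖1 + (M : ℂ) * (1 - inner ℂ p z)‖ ≤ 1 + M * dl z p := by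
  calc ‖1 + (M : ℂ) * (1 - inner ℂ p z)‖ ≤ ‖(1 : ℂ)‖ + ‖(M : ℂ) * (1 - inner ℂ p z)‖ :=
        norm_add_le _ _
    _ = 1 + M * dl z p := by
        rw [norm_mul, Complex.norm_real, Real.norm_of_nonneg hM]; simp [dl]

theorem pk_norm (K : ℕ) (M : ℝ) (p z : E2) :
    ‖pk K M p z‖ = (‖1 + (M : ℂ) * (1 - inner ℂ p z)‖ ^ K)⁻¹ := by
  unfold pk; rw [norm_inv, norm_pow]

theorem pk_norm_le {K : ℕ} {M : ℝ} (hM : 1 ≤ M) {p z : E2} (hp : p ∈ S) (hz : z ∈ Bt (1 / M)) :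
    ‖pk K M p z‖ ≤ 6 ^ K * ((1 + M * dl z p) ^ K)⁻¹ := by
  rw [pk_norm]
  have h1 := den_lower hM hp hz
  have h2 : 0 < 1 + M * dl z p := by
    have := dl_nonneg z p
    positivity
  have h3 : ((1 + M * dl z p) / 6) ^ K ≤ ‖1 + (M : ℂ) * (1 - inner ℂ p z)‖ ^ K := by
    gcongr
  calc (‖1 + (M : ℂ) * (1 - inner ℂ p z)‖ ^ K)⁻¹ ≤ (((1 + M * dl z p) / 6) ^ K)⁻¹ := by
        gcongr
    _ = 6 ^ K * ((1 + M * dl z p) ^ K)⁻¹ := by
        rw [div_pow, inv_div]; ring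

theorem norm_inner_le_norm_left {p z : E2} (hp : p ∈ S) : ‖(inner ℂ p z : ℂ)‖ ≤ ‖z‖ := by
  have hp1 : ‖p‖ = 1 := hp
  have := norm_inner_le_norm (𝕜 := ℂ) p z
  rwa [hp1, one_mul] at this

/-- the weight along act -/
theorem pk_act {K : ℕ} {M : ℝ} (z q : E2) (hz : z ∈ S) :
    ‖pk K M (act z q) z‖ ^ 2 = wt K M q := by
  have hz1 : ‖z‖ = 1 := hz
  rw [pk_norm]
  unfold wt
  have h : (inner ℂ (act z q) z : ℂ) = starRingEnd ℂ (q 0) := by
    have h0 := inner_act z q e1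
    rw [act_e1, hz1] at h0
    rw [h0, inner_eq]; simp
  rw [h]
  have h2 : ‖1 + (M : ℂ) * (1 - (starRingEnd ℂ) (q 0))‖ = ‖1 + (M : ℂ) * (1 - q 0)‖ := by
    rw [← Complex.norm_conj]; simp
  rw [h2, inv_pow, ← pow_mul, mul_comm K 2]

theorem differentiableOn_pk {K : ℕ} {M : ℝ} (hM : 1 ≤ M) {p : E2} (hp : p ∈ S) :
    DifferentiableOn ℂ (pk K M p) (Bt (1 / M)) := by
  intro z hz
  have h1 := re_den hM hp hz
  have h2 : (1 + (M : ℂ) * (1 - inner ℂ p z)) ≠ 0 := by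
    intro h; rw [h] at h1; simp at h1; linarith
  have h3 : DifferentiableAt ℂ (fun z : E2 => (inner ℂ p z : ℂ)) z :=
    (innerSL ℂ p).differentiableAt
  unfold pk
  refine DifferentiableAt.differentiableWithinAt ?_
  refine DifferentiableAt.inv ?_ (pow_ne_zero _ h2)
  exact ((h3.const_sub 1).const_mul (M : ℂ)).const_add 1 |>.pow K

theorem measurable_pk (K : ℕ) (M : ℝ) (p : E2) : Measurable (pk K M p) := by
  unfold pk
  have : Continuous (fun z : E2 => (1 + (M : ℂ) * (1 - inner ℂ p z)) ^ K) := by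
    have h : Continuous (fun z : E2 => (inner ℂ p z : ℂ)) := continuous_const.inner continuous_id
    exact (continuous_const.add (continuous_const.mul (continuous_const.sub h))).pow K
  exact this.measurable.inv

end Pool.Agent.BM
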