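import Pool.Agent.Work.MP_e08233_an.Basic

/-! Multi-differences for the smoothing estimate. -/

set_option autoImplicit false

open MeasureTheory Complex

namespace Pool.Agent.BM

/-- alternating multi-difference along right multiplication (matrix version) -/
noncomputable def Dm (F : Matrix (Fin 2) (Fin 2) ℂ → ℂ) :
    List E2 → Matrix (Fin 2) (Fin 2) ℂ → ℂ
  | [], y => F y
  | q :: qs, y => Dm F qs y - Dm F qs (y * kq q)

/-- alternating multi-difference along right multiplication (sphere version) -/
noncomputable def dif (u : E2 → ℝ) : List E2 → E2 → ℝ
  | [], z => u z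
  | q :: qs, z => dif u qs z - dif u qs (act z q)

end Pool.Agent.BM
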