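import Mathlib

/-! Definitions for the proof of the negation of MP_e08233_an (frozen statement S06446):
non-rational proper maps of balls with prescribed finite smoothness at the boundary. -/

set_option autoImplicit false

open MeasureTheory Complex

namespace Pool.Agent.BM

/-- complex euclidean plane -/
abbrev E2 : Type := EuclideanSpace ℂ (Fin 2)

/-- target space -/
abbrev VN (N : ℕ) : Type := EuclideanSpace ℂ (Fin N)

/-- unit sphere -/
def S : Set E2 := {z | ‖z‖ = 1}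

/-- the open ball of squared radius 1 + τ -/
def Bt (τ : ℝ) : Set E2 := {z | ‖z‖ ^ 2 < 1 + τ}

/-- quaternionic conjugation -/
noncomputable def Jm (z : E2) : E2 :=
  WithLp.toLp 2 ![-(starRingEnd ℂ (z 1)), starRingEnd ℂ (z 0)]

/-- the product z.q ; for z, q of norm one this is the group law of SU(2) -/
noncomputable def act (z q : E2) : E2 := q 0 • z + q 1 • Jm z

/-- |1 - <z,p>| -/
noncomputable def dl (z p : E2) : ℝ := ‖(1 : ℂ) - inner ℂ p z‖

/-- the packet (1 + M (1 - <z,p>))^(-K) -/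
noncomputable def pk (K : ℕ) (M : ℝ) (p z : E2) : ℂ :=
  ((1 + (M : ℂ) * (1 - inner ℂ p z)) ^ K)⁻¹

/-- good measures on the sphere -/
structure Good (σ : Measure E2) (c C : ℝ) : Prop where
  prob : IsProbabilityMeasure σ
  supp : σ Sᶜ = 0
  inv : ∀ z ∈ S, σ.map (act z) = σ
  cpos : 0 < c
  Cpos : 0 < C
  lower : ∀ p ∈ S, ∀ δ : ℝ, 0 < δ → δ ≤ 1 → c * δ ^ 2 ≤ σ.real {q | dl q p ≤ δ}
  upper : ∀ p ∈ S, ∀ δ : ℝ, 0 < δ → σ.real {q | dl q p ≤ δ} ≤ C * δ ^ 2

/-- unnormalised weight -/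
noncomputable def wt (K : ℕ) (M : ℝ) (q : E2) : ℝ :=
  (‖1 + (M : ℂ) * (1 - q 0)‖ ^ (2 * K))⁻¹

/-- normalising constant -/
noncomputable def CM (σ : Measure E2) (K : ℕ) (M : ℝ) : ℝ := ∫ q, wt K M q ∂σ

/-- the normalised weight measure -/
noncomputable def kap (σ : Measure E2) (K : ℕ) (M : ℝ) : Measure E2 :=
  σ.withDensity (fun q => ENNReal.ofReal (wt K M q / CM σ K M))

/-- convolution operator T -/
noncomputable def Top (κ : Measure E2) (u : E2 → ℝ) (z : E2) : ℝ := ∫ q, u (act z q) ∂κ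

/-- the operator 1 - T -/
noncomputable def Dop (κ : Measure E2) (u : E2 → ℝ) (z : E2) : ℝ := u z - Top κ u z

/-- the matrix k_q -/
noncomputable def kq (q : E2) : Matrix (Fin 2) (Fin 2) ℂ :=
  !![q 0, -(starRingEnd ℂ (q 1)); q 1, starRingEnd ℂ (q 0)]

/-- neighbourhood of the identity matrix -/
def KK (x : ℝ) : Set (Matrix (Fin 2) (Fin 2) ℂ) :=
  {y | ‖y 0 0 - 1‖ ≤ x ∧ ‖y 1 1 - 1‖ ≤ x ∧ ‖y 0 1‖ ^ 2 ≤ x ∧ ‖y 1 0‖ ^ 2 ≤ x}

/-- first column of the moved frame -/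
noncomputable def zy (z0 : E2) (y : Matrix (Fin 2) (Fin 2) ℂ) : E2 :=
  y 0 0 • z0 + y 1 0 • Jm z0

/-- conjugate point of the second column of the moved frame -/
noncomputable def ey (z0 : E2) (y : Matrix (Fin 2) (Fin 2) ℂ) : E2 :=
  (starRingEnd ℂ (y 1 1)) • z0 - (starRingEnd ℂ (y 0 1)) • Jm z0

/-- pairs of comparable points at scale 1/M -/
def Cmp (M : ℝ) (z ζ : E2) : Prop :=
  z ∈ Bt (1 / M) ∧ ζ ∈ Bt (1 / M) ∧ ∀ p ∈ S, 1 + M * dl ζ p ≤ 3 * (1 + M * dl z p)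

end Pool.Agent.BM
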